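import Mathlib
import Pool.Graph.R_seed8.Helper539.Basic
import Pool.Graph.R_pool_sql_team_39128cda.Lib.helper26_.Berge

/-!
# A cheap host for books versus matchings
-/

set_option autoImplicit false
set_option linter.unusedSectionVars false

namespace Pool.Agent.H71.CN

open Finset SimpleGraph Pool.Agent.Helper539

/-- many matched vertices give a matching. -/
theorem matching_of_involution {X : Type} [Fintype X] [DecidableEq X] (Bl : SimpleGraph X)
    {t : ℕ} (f : X → X) (hf : ∀ v, f (f v) = v) (hadj : ∀ v, f v ≠ v → Bl.Adj v (f v))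
    (hcard : (univ.filter (fun v => f v = v)).card + 2 * t ≤ Fintype.card X) :
    matchingGraph t ⊑ Bl := by
  classical
  let e := Fintype.equivFin X
  let P : Finset X := univ.filter (fun v => e v < e (f v))
  let Q : Finset X := univ.filter (fun v => e (f v) < e v)
  have hPQ : P.card = Q.card := by
    apply Finset.card_bij (fun v _ => f v)
    · intro v hv
      have h1 := (Finset.mem_filter.1 hv).2
      refine Finset.mem_filter.2 ⟨Finset.mem_univ _, ?_⟩
      rw [hf]
      exact h1
    · intro v _ w _ h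
      have := congrArg f h
      rwa [hf, hf] at this
    · intro w hw
      have h1 := (Finset.mem_filter.1 hw).2
      refine ⟨f w, Finset.mem_filter.2 ⟨Finset.mem_univ _, ?_⟩, hf w⟩
      rw [hf]
      exact h1
  have hcov : (univ : Finset X) ⊆ (univ.filter (fun v => f v = v)) ∪ (P ∪ Q) := by
    intro v _
    rw [Finset.mem_union, Finset.mem_union]
    rcases lt_trichotomy (e v) (e (f v)) with h | h | h
    · exact Or.inr (Or.inl (Finset.mem_filter.2 ⟨Finset.mem_univ _, h⟩))
    · exact Or.inl (Finset.mem_filter.2 ⟨Finset.mem_univ _, (e.injective h).symm⟩)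
    · exact Or.inr (Or.inr (Finset.mem_filter.2 ⟨Finset.mem_univ _, h⟩))
  have h1 := Finset.card_le_card hcov
  have h2 := Finset.card_union_le (univ.filter (fun v => f v = v)) (P ∪ Q)
  have h3 := Finset.card_union_le P Q
  rw [Finset.card_univ] at h1
  have hP : t ≤ P.card := by omega
  let g : Fin t → X := fun i => (P.equivFin.symm (Fin.castLE hP i)).1
  have hg : ∀ i, e (g i) < e (f (g i)) := fun i =>
    (Finset.mem_filter.1 (P.equivFin.symm (Fin.castLE hP i)).2).2
  have hginj : ∀ i j, g i = g j → i = j := by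
    intro i j hij
    have h4 : P.equivFin.symm (Fin.castLE hP i) = P.equivFin.symm (Fin.castLE hP j) :=
      Subtype.ext hij
    have h5 := P.equivFin.symm.injective h4
    exact Fin.castLE_injective hP h5
  rw [matchingGraph_isContained_iff]
  refine ⟨fun x => if x.2 then f (g x.1) else g x.1, ?_, ?_⟩
  · rintro ⟨i, a⟩ ⟨j, b⟩ h
    cases a <;> cases b
    · have : g i = g j := h
      rw [hginj i j this]
    · exfalso
      have h4 : g i = f (g j) := h
      have h5 := hg i
      have h6 := hg j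
      rw [h4, hf] at h5
      exact absurd (h5.trans h6) (lt_irrefl _)
    · exfalso
      have h4 : f (g i) = g j := h
      have h5 := hg i
      have h6 := hg j
      rw [← h4, hf] at h6
      exact absurd (h5.trans h6) (lt_irrefl _)
    · have h4 : f (g i) = f (g j) := h
      have h5 := congrArg f h4
      rw [hf, hf] at h5
      rw [hginj i j h5]
  · intro i
    show Bl.Adj (g i) (f (g i))
    apply hadj
    intro h
    have h5 := hg i
    rw [h] at h5
    exact lt_irrefl _ h5

/-- the barrier of a graph without a large matching. -/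
theorem barrier {X : Type} [Fintype X] [DecidableEq X] (Bl : SimpleGraph X) {t : ℕ}
    (ht : 2 * t ≤ Fintype.card X) (h : ¬ (matchingGraph t ⊑ Bl)) :
    ∃ (S : Finset X) (K : Finset (Finset X)),
      S.card + Fintype.card X + 2 ≤ K.card + 2 * t ∧
      (∀ C ∈ K, Odd C.card ∧ Disjoint C S ∧ ∀ v ∈ C, ∀ w, Bl.Adj v w → w ∈ C ∨ w ∈ S) ∧
      (K : Set (Finset X)).PairwiseDisjoint id := by
  rcases Pool.Agent.Lib.helper26.Berge.tb Bl (Fintype.card X - 2 * t)
    ⟨Fintype.card X - t, by omega⟩ with ⟨f, hf, hadj, hcard⟩ | ⟨S, K, h1, h2, h3⟩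
  · exfalso
    exact h (matching_of_involution Bl f hf hadj (by omega))
  · exact ⟨S, K, by omega, h2, h3⟩

/-- a disjoint family of sets which all meet `T` has at most `|T|` members. -/
theorem card_le_of_hit {X : Type} [DecidableEq X] (K : Finset (Finset X))
    (hdis : (K : Set (Finset X)).PairwiseDisjoint id) (T : Finset X)
    (hT : ∀ C ∈ K, ∃ x, x ∈ C ∧ x ∈ T) : K.card ≤ T.card := by
  rcases K.eq_empty_or_nonempty with h | ⟨C0, hC0⟩
  · rw [h]
    simp
  · obtain ⟨x0, -⟩ := hT C0 hC0
    haveI : Nonempty X := ⟨x0⟩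
    choose! f hf using hT
    apply Finset.card_le_card_of_injOn f (fun C hC => (hf C hC).2)
    intro C hC C' hC' h
    by_contra hne
    have h1 := hdis hC hC' hne
    have h2 : f C ∈ C' := by
      rw [h]
      exact (hf C' hC').1
    exact (Finset.disjoint_left.1 h1) (hf C hC).1 h2

/-- the host. -/
def bookHost (n M b t : ℕ) : SimpleGraph (Fin n ⊕ Fin M) where
  Adj a c := match a, c with
    | Sum.inl i, Sum.inl j => i ≠ j
    | Sum.inl i, Sum.inr k => k.val < b + min i.val t
    | Sum.inr k, Sum.inl i => k.val < b + min i.val t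
    | Sum.inr _, Sum.inr _ => False
  symm := ⟨by
    rintro (i | i) (j | j) h
    · exact Ne.symm h
    · exact h
    · exact h
    · exact h⟩
  loopless := ⟨by
    rintro (i | i) h
    · exact h rfl
    · exact h⟩

theorem exists_pair {n M t j h : ℕ} (hn : n = 2 * t + j) (hjh : 2 * t ≤ (j + 1) * h)
    (ht : 1 ≤ t)
    (Bl : SimpleGraph (Fin n ⊕ Fin M)) (hBl : ¬ (matchingGraph t ⊑ Bl)) :
    ∃ (S C C' : Finset (Fin n ⊕ Fin M)) (x y : Fin n), S.card < t ∧ C.card ≤ h ∧ C'.card ≤ h ∧
      Sum.inl x ∈ C ∧ Sum.inl y ∈ C' ∧ S.card ≤ x.val ∧ S.card ≤ y.val ∧ Disjoint C C' ∧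
      Disjoint C S ∧ Disjoint C' S ∧
      (∀ v ∈ C, ∀ w, Bl.Adj v w → w ∈ C ∨ w ∈ S) ∧
      (∀ v ∈ C', ∀ w, Bl.Adj v w → w ∈ C' ∨ w ∈ S) := by
  classical
  have hcardX : Fintype.card (Fin n ⊕ Fin M) = n + M := by
    rw [Fintype.card_sum, Fintype.card_fin, Fintype.card_fin]
  obtain ⟨S, K, h1, h2, h3⟩ := barrier Bl (by rw [hcardX]; omega) hBl
  rw [hcardX] at h1
  -- total size
  have hsum : ∑ C ∈ K, C.card + S.card ≤ n + M := by
    have e1 : (K.biUnion id).card = ∑ C ∈ K, C.card := Finset.card_biUnion h3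
    have e2 : Disjoint (K.biUnion id) S := by
      rw [Finset.disjoint_biUnion_left]
      exact fun C hC => (h2 C hC).2.1
    rw [← e1, ← Finset.card_union_of_disjoint e2, ← hcardX]
    exact Finset.card_le_univ _
  have hlarge : K.card + (K.filter (fun C => h < C.card)).card * h ≤ ∑ C ∈ K, C.card := by
    have e1 : K.card + (K.filter (fun C => h < C.card)).card * h =
        ∑ C ∈ K, (1 + if h < C.card then h else 0) := by
      rw [Finset.sum_add_distrib, Finset.sum_const, smul_eq_mul, mul_one, ← Finset.sum_filter,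
        Finset.sum_const, smul_eq_mul]
    rw [e1]
    apply Finset.sum_le_sum
    intro C hC
    have h4 := (h2 C hC).1.pos
    split_ifs with h5
    · omega
    · omega
  have hκ : (K.filter (fun C => h < C.card)).card ≤ j := by
    by_contra hcon
    push Not at hcon
    have h4 : (j + 1) * h ≤ (K.filter (fun C => h < C.card)).card * h :=
      Nat.mul_le_mul_right h hcon
    omega
  -- pieces without core vertices
  have hleaf : (K.filter (fun C => ¬ ∃ i : Fin n, Sum.inl i ∈ C)).card ≤ M := by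
    have h4 := card_le_of_hit (K.filter (fun C => ¬ ∃ i : Fin n, Sum.inl i ∈ C))
      (h3.subset (Finset.coe_subset.2 (Finset.filter_subset _ _)))
      ((univ : Finset (Fin M)).map ⟨Sum.inr, Sum.inr_injective⟩) (by
        intro C hC
        rw [Finset.mem_filter] at hC
        have h5 := (h2 C hC.1).1.pos
        rw [Finset.card_pos] at h5
        obtain ⟨x, hx⟩ := h5
        refine ⟨x, hx, ?_⟩
        rcases x with i | k
        · exact absurd ⟨i, hx⟩ hC.2
        · exact Finset.mem_map.2 ⟨k, Finset.mem_univ _, rfl⟩)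
    rwa [Finset.card_map, Finset.card_univ, Fintype.card_fin] at h4
  -- pieces whose core vertices are all small
  have hlow : (K.filter (fun C => (∃ i : Fin n, Sum.inl i ∈ C) ∧
      ¬ ∃ i : Fin n, Sum.inl i ∈ C ∧ S.card ≤ i.val)).card ≤ S.card := by
    have h4 := card_le_of_hit (K.filter (fun C => (∃ i : Fin n, Sum.inl i ∈ C) ∧
      ¬ ∃ i : Fin n, Sum.inl i ∈ C ∧ S.card ≤ i.val))
      (h3.subset (Finset.coe_subset.2 (Finset.filter_subset _ _)))
      (((univ : Finset (Fin n)).filter (fun i => i.val < S.card)).map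
        ⟨Sum.inl, Sum.inl_injective⟩) (by
        intro C hC
        rw [Finset.mem_filter] at hC
        obtain ⟨i, hi⟩ := hC.2.1
        refine ⟨Sum.inl i, hi, Finset.mem_map.2 ⟨i, ?_, rfl⟩⟩
        refine Finset.mem_filter.2 ⟨Finset.mem_univ _, ?_⟩
        by_contra hcon
        exact hC.2.2 ⟨i, hi, by omega⟩)
    rw [Finset.card_map] at h4
    refine h4.trans ?_
    have h5 : ((univ : Finset (Fin n)).filter (fun i => i.val < S.card)).card ≤
        (range S.card).card := by
      apply Finset.card_le_card_of_injOn (fun i => i.val)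
      · intro i hi
        rw [Finset.mem_coe, Finset.mem_filter] at hi
        rw [Finset.mem_coe, Finset.mem_range]
        exact hi.2
      · intro i _ i' _ h
        exact Fin.ext h
    rwa [Finset.card_range] at h5
  have hgood : 2 ≤ (K.filter (fun C => C.card ≤ h ∧
      ∃ i : Fin n, Sum.inl i ∈ C ∧ S.card ≤ i.val)).card := by
    have hcov : K ⊆ (K.filter (fun C => C.card ≤ h ∧
        ∃ i : Fin n, Sum.inl i ∈ C ∧ S.card ≤ i.val)) ∪
        ((K.filter (fun C => h < C.card)) ∪
        ((K.filter (fun C => ¬ ∃ i : Fin n, Sum.inl i ∈ C)) ∪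
        (K.filter (fun C => (∃ i : Fin n, Sum.inl i ∈ C) ∧
          ¬ ∃ i : Fin n, Sum.inl i ∈ C ∧ S.card ≤ i.val)))) := by
      intro C hC
      simp only [Finset.mem_union, Finset.mem_filter]
      by_cases a1 : C.card ≤ h
      · by_cases a2 : ∃ i : Fin n, Sum.inl i ∈ C
        · by_cases a3 : ∃ i : Fin n, Sum.inl i ∈ C ∧ S.card ≤ i.val
          · exact Or.inl ⟨hC, a1, a3⟩
          · exact Or.inr (Or.inr (Or.inr ⟨hC, a2, a3⟩))
        · exact Or.inr (Or.inr (Or.inl ⟨hC, a2⟩))
      · exact Or.inr (Or.inl ⟨hC, by omega⟩)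
    have b1 := Finset.card_le_card hcov
    have b2 := Finset.card_union_le (K.filter (fun C => C.card ≤ h ∧
        ∃ i : Fin n, Sum.inl i ∈ C ∧ S.card ≤ i.val))
        ((K.filter (fun C => h < C.card)) ∪
        ((K.filter (fun C => ¬ ∃ i : Fin n, Sum.inl i ∈ C)) ∪
        (K.filter (fun C => (∃ i : Fin n, Sum.inl i ∈ C) ∧
          ¬ ∃ i : Fin n, Sum.inl i ∈ C ∧ S.card ≤ i.val))))
    have b3 := Finset.card_union_le (K.filter (fun C => h < C.card))
        ((K.filter (fun C => ¬ ∃ i : Fin n, Sum.inl i ∈ C)) ∪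
        (K.filter (fun C => (∃ i : Fin n, Sum.inl i ∈ C) ∧
          ¬ ∃ i : Fin n, Sum.inl i ∈ C ∧ S.card ≤ i.val)))
    have b4 := Finset.card_union_le (K.filter (fun C => ¬ ∃ i : Fin n, Sum.inl i ∈ C))
        (K.filter (fun C => (∃ i : Fin n, Sum.inl i ∈ C) ∧
          ¬ ∃ i : Fin n, Sum.inl i ∈ C ∧ S.card ≤ i.val))
    omega
  obtain ⟨C, hC, C', hC', hne⟩ := Finset.one_lt_card.1 hgood
  rw [Finset.mem_filter] at hC hC'
  obtain ⟨hCK, hCh, x, hx, hxs⟩ := hC
  obtain ⟨hCK', hCh', y, hy, hys⟩ := hC'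
  refine ⟨S, C, C', x, y, ?_, hCh, hCh', hx, hy, hxs, hys, h3 hCK hCK' hne, (h2 C hCK).2.1,
    (h2 C' hCK').2.1, (h2 C hCK).2.2, (h2 C' hCK').2.2⟩
  omega

end Pool.Agent.H71.CN
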