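import Mathlib
import Pool.Graph.R_seed8.Helper539.Basic
import Pool.Agent.H71.CN.Book

/-!
# A cheap host for books versus matchings, the arrow relation and the number of edges
-/

set_option autoImplicit false
set_option linter.unusedSectionVars false

namespace Pool.Agent.H71.CN

open Finset SimpleGraph Pool.Agent.Helper539

/-- The star with centre `0` and leaves `1, …, d`, together with the edges joining the leaf `1` to
the leaves `2, …, c + 1`. -/
def starLeaf (d c : ℕ) : SimpleGraph (Fin (d + 1)) :=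
  SimpleGraph.fromRel (fun a b => a.val = 0 ∨ (a.val = 1 ∧ b.val ≤ c + 1))

theorem starLeaf_isContained {D c : ℕ} {X : Type} [DecidableEq X] {R : SimpleGraph X} {x y : X}
    (hxy : R.Adj x y) (Z : Finset X) (hZ : D ≤ Z.card + 1) (hZx : ∀ z ∈ Z, R.Adj x z)
    (hZy : ∀ z ∈ Z, R.Adj y z) : starLeaf D c ⊑ R := by
  let g : ℕ → X := fun k => if h : k < Z.card then (Z.equivFin.symm ⟨k, h⟩).1 else x
  have hgdef : ∀ k (h : k < Z.card), g k = (Z.equivFin.symm ⟨k, h⟩).1 := fun k h => dif_pos h
  have hg : ∀ k, k < Z.card → g k ∈ Z := by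
    intro k h
    rw [hgdef k h]
    exact (Z.equivFin.symm ⟨k, h⟩).2
  have hginj : ∀ k l, k < Z.card → l < Z.card → g k = g l → k = l := by
    intro k l hk hl h
    rw [hgdef k hk, hgdef l hl] at h
    have h1 := Z.equivFin.symm.injective (Subtype.ext h)
    exact congrArg Fin.val h1
  have hxZ : x ∉ Z := fun h => (hZx x h).ne rfl
  have hyZ : y ∉ Z := fun h => (hZy y h).ne rfl
  let φ : Fin (D + 1) → X := fun v => if v.val = 0 then x else if v.val = 1 then y
    else g (v.val - 2)
  have φ0 : ∀ v : Fin (D + 1), v.val = 0 → φ v = x := fun v h => if_pos h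
  have φ1 : ∀ v : Fin (D + 1), v.val = 1 → φ v = y := by
    intro v h
    have : v.val ≠ 0 := by omega
    show (if v.val = 0 then x else if v.val = 1 then y else g (v.val - 2)) = y
    rw [if_neg this, if_pos h]
  have φ2 : ∀ v : Fin (D + 1), 2 ≤ v.val → φ v = g (v.val - 2) := by
    intro v h
    show (if v.val = 0 then x else if v.val = 1 then y else g (v.val - 2)) = _
    rw [if_neg (by omega), if_neg (by omega)]
  have φZ : ∀ v : Fin (D + 1), 2 ≤ v.val → φ v ∈ Z := by
    intro v h
    rw [φ2 v h]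
    have := v.isLt
    exact hg _ (by omega)
  have hinj : Function.Injective φ := by
    intro v w h
    apply Fin.ext
    have hv := v.isLt
    have hw := w.isLt
    rcases (by omega : v.val = 0 ∨ v.val = 1 ∨ 2 ≤ v.val) with a | a | a <;>
    rcases (by omega : w.val = 0 ∨ w.val = 1 ∨ 2 ≤ w.val) with b | b | b
    · omega
    · rw [φ0 v a, φ1 w b] at h
      exact absurd h hxy.ne
    · exfalso
      rw [φ0 v a] at h
      apply hxZ
      rw [h]
      exact φZ w b
    · rw [φ1 v a, φ0 w b] at h
      exact absurd h.symm hxy.ne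
    · omega
    · exfalso
      rw [φ1 v a] at h
      apply hyZ
      rw [h]
      exact φZ w b
    · exfalso
      rw [φ0 w b] at h
      apply hxZ
      rw [← h]
      exact φZ v a
    · exfalso
      rw [φ1 w b] at h
      apply hyZ
      rw [← h]
      exact φZ v a
    · rw [φ2 v a, φ2 w b] at h
      have := hginj _ _ (by omega) (by omega) h
      omega
  have key : ∀ a b : Fin (D + 1), a ≠ b → (a.val = 0 ∨ a.val = 1) → R.Adj (φ a) (φ b) := by
    intro a b hab h
    have hv : a.val ≠ b.val := fun h => hab (Fin.ext h)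
    rcases h with h | h
    · rw [φ0 a h]
      by_cases h1 : b.val = 1
      · rw [φ1 b h1]
        exact hxy
      · exact hZx _ (φZ b (by omega))
    · rw [φ1 a h]
      by_cases h1 : b.val = 0
      · rw [φ0 b h1]
        exact hxy.symm
      · exact hZy _ (φZ b (by omega))
  refine ⟨⟨⟨φ, ?_⟩, hinj⟩⟩
  intro a b hab
  rw [starLeaf, SimpleGraph.fromRel_adj] at hab
  obtain ⟨hne, (h | h) | (h | h)⟩ := hab
  · exact key a b hne (Or.inl h)
  · exact key a b hne (Or.inr h.1)
  · exact (key b a hne.symm (Or.inl h)).symm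
  · exact (key b a hne.symm (Or.inr h.1)).symm

theorem host_arrows {D c n M b t j h : ℕ} (hn : n = 2 * t + j) (hjh : 2 * t ≤ (j + 1) * h)
    (ht : 1 ≤ t) (hb : b + n + 1 = D + 2 * h) (hM : M = b + t) :
    Arrows (bookHost n M b t) (starLeaf D c) (matchingGraph t) := by
  classical
  intro R hR
  by_contra hcon
  rw [not_or] at hcon
  obtain ⟨h1, h2⟩ := hcon
  obtain ⟨S, C, C', x, y, hS, hC, hC', hx, hy, hxs, hys, hdis, hCS, hCS', hcl, hcl'⟩ :=
    exists_pair hn hjh ht (bookHost n M b t \ R) h2
  have hxy : x ≠ y := by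
    intro h
    rw [h] at hx
    exact (Finset.disjoint_left.1 hdis) hx hy
  have hle : b + S.card ≤ M := by omega
  let ι : Fin (b + S.card) ↪ Fin n ⊕ Fin M :=
    ⟨fun k => Sum.inr (Fin.castLE hle k), fun k l h => by
      have := Sum.inr_injective h
      exact Fin.castLE_injective hle this⟩
  let W1 : Finset (Fin n ⊕ Fin M) :=
    (((univ : Finset (Fin n)).erase x).erase y).map ⟨Sum.inl, Sum.inl_injective⟩
  let W2 : Finset (Fin n ⊕ Fin M) := (univ : Finset (Fin (b + S.card))).map ι
  have hW1 : W1.card = n - 1 - 1 := by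
    simp only [W1]
    rw [Finset.card_map, Finset.card_erase_of_mem
      (Finset.mem_erase.2 ⟨hxy.symm, Finset.mem_univ _⟩),
      Finset.card_erase_of_mem (Finset.mem_univ _), Finset.card_univ, Fintype.card_fin]
  have hW2 : W2.card = b + S.card := by
    simp only [W2]
    rw [Finset.card_map, Finset.card_univ, Fintype.card_fin]
  have hW12 : Disjoint W1 W2 := by
    rw [Finset.disjoint_left]
    intro z hz1 hz2
    obtain ⟨i, -, hi⟩ := Finset.mem_map.1 hz1
    obtain ⟨k, -, hk⟩ := Finset.mem_map.1 hz2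
    rw [← hi] at hk
    exact absurd hk (by simp [ι])
  have hW : (W1 ∪ W2).card = n - 1 - 1 + (b + S.card) := by
    rw [Finset.card_union_of_disjoint hW12, hW1, hW2]
  have hFx : ∀ z ∈ W1 ∪ W2, (bookHost n M b t).Adj (Sum.inl x) z := by
    intro z hz
    rcases Finset.mem_union.1 hz with hz | hz
    · obtain ⟨i, hi, rfl⟩ := Finset.mem_map.1 hz
      have h3 : i ≠ x := (Finset.mem_erase.1 (Finset.mem_erase.1 hi).2).1
      exact h3.symm
    · obtain ⟨k, -, rfl⟩ := Finset.mem_map.1 hz
      show k.val < b + min x.val t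
      have := k.isLt
      omega
  have hFy : ∀ z ∈ W1 ∪ W2, (bookHost n M b t).Adj (Sum.inl y) z := by
    intro z hz
    rcases Finset.mem_union.1 hz with hz | hz
    · obtain ⟨i, hi, rfl⟩ := Finset.mem_map.1 hz
      have h3 : i ≠ y := (Finset.mem_erase.1 hi).1
      exact h3.symm
    · obtain ⟨k, -, rfl⟩ := Finset.mem_map.1 hz
      show k.val < b + min y.val t
      have := k.isLt
      omega
  apply h1
  have hred : ∀ (v : Fin n) (A : Finset (Fin n ⊕ Fin M)),
      (∀ u ∈ A, ∀ w, (bookHost n M b t \ R).Adj u w → w ∈ A ∨ w ∈ S) → Sum.inl v ∈ A →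
      ∀ z, (bookHost n M b t).Adj (Sum.inl v) z → z ∉ A.erase (Sum.inl v) → z ∉ S →
      R.Adj (Sum.inl v) z := by
    intro v A hA hv z hz hz1 hz2
    by_contra hR2
    have h3 : (bookHost n M b t \ R).Adj (Sum.inl v) z := by
      rw [SimpleGraph.sdiff_adj]
      exact ⟨hz, hR2⟩
    rcases hA _ hv z h3 with h4 | h4
    · exact hz1 (Finset.mem_erase.2 ⟨hz.ne', h4⟩)
    · exact hz2 h4
  apply starLeaf_isContained (x := Sum.inl x) (y := Sum.inl y)
    (Z := (W1 ∪ W2) \ (S ∪ (C.erase (Sum.inl x) ∪ C'.erase (Sum.inl y))))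
  · apply hred x C hcl hx
    · exact hxy
    · intro h3
      exact (Finset.disjoint_left.1 hdis) (Finset.mem_erase.1 h3).2 hy
    · exact fun h3 => (Finset.disjoint_left.1 hCS') hy h3
  · have c1 := Finset.le_card_sdiff (S ∪ (C.erase (Sum.inl x) ∪ C'.erase (Sum.inl y))) (W1 ∪ W2)
    have c2 := Finset.card_union_le S (C.erase (Sum.inl x) ∪ C'.erase (Sum.inl y))
    have c3 := Finset.card_union_le (C.erase (Sum.inl x)) (C'.erase (Sum.inl y))
    have c4 := Finset.card_erase_of_mem hx
    have c5 := Finset.card_erase_of_mem hy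
    have c6 : 0 < C.card := Finset.card_pos.2 ⟨_, hx⟩
    have c7 : 0 < C'.card := Finset.card_pos.2 ⟨_, hy⟩
    omega
  · intro z hz
    obtain ⟨hz1, hz2⟩ := Finset.mem_sdiff.1 hz
    exact hred x C hcl hx z (hFx z hz1)
      (fun h => hz2 (Finset.mem_union_right _ (Finset.mem_union_left _ h)))
      (fun h => hz2 (Finset.mem_union_left _ h))
  · intro z hz
    obtain ⟨hz1, hz2⟩ := Finset.mem_sdiff.1 hz
    exact hred y C' hcl' hy z (hFy z hz1)
      (fun h => hz2 (Finset.mem_union_right _ (Finset.mem_union_right _ h)))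
      (fun h => hz2 (Finset.mem_union_left _ h))

theorem host_edges {n M b t : ℕ} (hM : M = b + t) (htn : t ≤ n) :
    2 * (bookHost n M b t).edgeSet.ncard + t * (t + 1) + n ≤ n * n + 2 * n * b + 2 * n * t := by
  let T := Σ i : Fin n, (Fin i.val ⊕ Fin (b + min i.val t))
  have hlt : ∀ (i : Fin n) (k : Fin (b + min i.val t)), k.val < M := by
    intro i k
    have := k.isLt
    omega
  let f : T → Sym2 (Fin n ⊕ Fin M) := fun x =>
    match x with
    | ⟨i, Sum.inl k⟩ => s(Sum.inl i, Sum.inl ⟨k.val, k.isLt.trans i.isLt⟩)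
    | ⟨i, Sum.inr k⟩ => s(Sum.inl i, Sum.inr ⟨k.val, hlt i k⟩)
  have h1 : (bookHost n M b t).edgeSet ⊆ Set.range f := by
    intro e
    induction e using Sym2.ind with
    | _ u v =>
      intro he
      rw [SimpleGraph.mem_edgeSet] at he
      rcases u with i | k <;> rcases v with j | l
      · have hij : i ≠ j := he
        rcases lt_or_gt_of_ne hij with h | h
        · refine ⟨⟨j, Sum.inl ⟨i.val, h⟩⟩, ?_⟩
          exact Sym2.eq_swap
        · exact ⟨⟨i, Sum.inl ⟨j.val, h⟩⟩, rfl⟩
      · have h : l.val < b + min i.val t := he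
        exact ⟨⟨i, Sum.inr ⟨l.val, h⟩⟩, rfl⟩
      · have h : k.val < b + min j.val t := he
        refine ⟨⟨j, Sum.inr ⟨k.val, h⟩⟩, ?_⟩
        exact Sym2.eq_swap
      · exact absurd he (fun h => h)
  have h2 := Set.ncard_le_ncard h1 (Set.toFinite _)
  have h3 : (Set.range f).ncard ≤ ∑ i : Fin n, (i.val + (b + min i.val t)) := by
    rw [← Set.image_univ]
    refine (Set.ncard_image_le (Set.toFinite _)).trans ?_
    rw [Set.ncard_univ, Nat.card_eq_fintype_card, Fintype.card_sigma]
    apply le_of_eq
    apply Finset.sum_congr rfl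
    intro i _
    rw [Fintype.card_sum, Fintype.card_fin, Fintype.card_fin]
  rw [Fin.sum_univ_eq_sum_range (fun i => i + (b + min i t)) n] at h3
  have h4 : ∀ m, m ≤ t → ∑ i ∈ range m, (i + (b + min i t)) + m = m * m + m * b := by
    intro m
    induction m with
    | zero => intro _; simp
    | succ m ih =>
      intro hm
      rw [Finset.sum_range_succ]
      have h5 := ih (by omega)
      have h6 : min m t = m := by omega
      rw [h6]
      have e1 : (m + 1) * (m + 1) = m * m + 2 * m + 1 := by ring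
      have e2 : (m + 1) * b = m * b + b := by ring
      omega
  have h5 : ∀ m, t ≤ m →
      2 * ∑ i ∈ range m, (i + (b + min i t)) + t * (t + 1) + m = m * m + 2 * m * b + 2 * m * t := by
    intro m hm
    induction m, hm using Nat.le_induction with
    | base =>
      have h6 := h4 t le_rfl
      have e1 : t * (t + 1) = t * t + t := by ring
      have e2 : 2 * t * b = 2 * (t * b) := by ring
      have e3 : 2 * t * t = 2 * (t * t) := by ring
      omega
    | succ m hm ih =>
      rw [Finset.sum_range_succ]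
      have h6 : min m t = t := by omega
      rw [h6]
      have e1 : (m + 1) * (m + 1) = m * m + 2 * m + 1 := by ring
      have e2 : 2 * (m + 1) * b = 2 * m * b + 2 * b := by ring
      have e3 : 2 * (m + 1) * t = 2 * m * t + 2 * t := by ring
      omega
  have h6 := h5 n htn
  omega

end Pool.Agent.H71.CN
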