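import Mathlib

/-!
# Stability of star hosts

Let `H` be a finite graph such that every set of fewer than `t` vertices misses a vertex which
still has `d` neighbours outside the set.  Then the number of edges which meet the set `B` of
vertices of degree at least `d` is at least `d t + d (|B| - t) / 22` (for `d ≥ 120`).
-/

set_option autoImplicit false
set_option linter.unusedSectionVars false

namespace Pool.Agent.H71.CN

open Finset

/-- sampling lemma. -/
theorem sampling {V : Type*} [DecidableEq V] (K : Finset V) (N : V → Finset V) (R : Finset V) :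
    ∀ w : V → ℝ, (∀ k, 0 ≤ w k) →
    ∃ T ⊆ R, (T.card : ℝ) + ∑ k ∈ K, w k * (1 / 2 : ℝ) ^ (N k ∩ T).card ≤
      (R.card : ℝ) / 4 + ∑ k ∈ K, w k * (7 / 8 : ℝ) ^ (N k ∩ R).card := by
  induction R using Finset.induction_on with
  | empty =>
    intro w hw
    exact ⟨∅, by simp, by simp⟩
  | insert r R hr ih =>
    intro w hw
    have hw' : ∀ k, 0 ≤ (if r ∈ N k then w k / 2 else w k) := by
      intro k
      split_ifs
      · exact div_nonneg (hw k) (by norm_num)
      · exact hw k
    obtain ⟨T1, hT1, h1⟩ := ih (fun k => if r ∈ N k then w k / 2 else w k) hw'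
    obtain ⟨T0, hT0, h0⟩ := ih w hw
    have hr1 : r ∉ T1 := fun h => hr (hT1 h)
    have e1 : ∑ k ∈ K, w k * (1 / 2 : ℝ) ^ (N k ∩ insert r T1).card =
        ∑ k ∈ K, (if r ∈ N k then w k / 2 else w k) * (1 / 2 : ℝ) ^ (N k ∩ T1).card := by
      apply Finset.sum_congr rfl
      intro k _
      by_cases h : r ∈ N k
      · rw [if_pos h, Finset.inter_insert_of_mem h, Finset.card_insert_of_notMem
          (fun h2 => hr1 (Finset.mem_inter.1 h2).2), pow_succ]
        ring
      · rw [if_neg h, Finset.inter_insert_of_notMem h]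
    have e2 : ∑ k ∈ K, w k * (7 / 8 : ℝ) ^ (N k ∩ insert r R).card =
        (∑ k ∈ K, (if r ∈ N k then w k / 2 else w k) * (7 / 8 : ℝ) ^ (N k ∩ R).card) / 4 +
        3 / 4 * ∑ k ∈ K, w k * (7 / 8 : ℝ) ^ (N k ∩ R).card := by
      rw [Finset.sum_div, Finset.mul_sum, ← Finset.sum_add_distrib]
      apply Finset.sum_congr rfl
      intro k _
      by_cases h : r ∈ N k
      · rw [if_pos h, Finset.inter_insert_of_mem h, Finset.card_insert_of_notMem
          (fun h2 => hr (Finset.mem_inter.1 h2).2), pow_succ]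
        ring
      · rw [if_neg h, Finset.inter_insert_of_notMem h]
        ring
    rw [e2, Finset.card_insert_of_notMem hr]
    push_cast
    by_cases hc : (R.card : ℝ) / 4 + ∑ k ∈ K, w k * (7 / 8 : ℝ) ^ (N k ∩ R).card ≤
        ((R.card : ℝ) + 1) / 4 +
        ((∑ k ∈ K, (if r ∈ N k then w k / 2 else w k) * (7 / 8 : ℝ) ^ (N k ∩ R).card) / 4 +
        3 / 4 * ∑ k ∈ K, w k * (7 / 8 : ℝ) ^ (N k ∩ R).card)
    · exact ⟨T0, hT0.trans (Finset.subset_insert _ _), h0.trans hc⟩
    · refine ⟨insert r T1, Finset.insert_subset_insert _ hT1, ?_⟩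
      rw [e1, Finset.card_insert_of_notMem hr1]
      push_cast
      linarith

section Dg

variable {V : Type*} [Fintype V] [DecidableEq V] (H : SimpleGraph V) [DecidableRel H.Adj]

/-- number of neighbours of `x` in `S`. -/
def dg (x : V) (S : Finset V) : ℕ := (S.filter (fun y => H.Adj x y)).card

theorem dg_insert (u x : V) (S : Finset V) (hx : x ∉ S) :
    dg H u (insert x S) = dg H u S + if H.Adj u x then 1 else 0 := by
  unfold dg
  rw [Finset.filter_insert]
  split_ifs with h
  · rw [Finset.card_insert_of_notMem (fun h2 => hx (Finset.mem_filter.1 h2).1)]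
  · rfl

theorem dg_eq_sum (u : V) (S : Finset V) :
    dg H u S = ∑ x ∈ S, if H.Adj x u then 1 else 0 := by
  unfold dg
  rw [Finset.card_filter]
  apply Finset.sum_congr rfl
  intro x _
  simp only [H.adj_comm u x]

theorem dg_erase_self (x : V) (S : Finset V) : dg H x (S.erase x) = dg H x S := by
  unfold dg
  congr 1
  ext y
  simp only [Finset.mem_filter, Finset.mem_erase]
  constructor
  · rintro ⟨⟨_, h1⟩, h2⟩
    exact ⟨h1, h2⟩
  · rintro ⟨h1, h2⟩
    exact ⟨⟨h2.ne', h1⟩, h2⟩

theorem dg_mono (x : V) {S T : Finset V} (h : S ⊆ T) : dg H x S ≤ dg H x T :=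
  Finset.card_le_card (Finset.filter_subset_filter _ h)

theorem dg_union (x : V) {S T : Finset V} (h : Disjoint S T) :
    dg H x (S ∪ T) = dg H x S + dg H x T := by
  unfold dg
  rw [Finset.filter_union, Finset.card_union_of_disjoint]
  exact Finset.disjoint_filter_filter h

theorem dg_split (x : V) {S T : Finset V} (h : S ⊆ T) :
    dg H x T = dg H x S + dg H x (T \ S) := by
  rw [← dg_union H x Finset.disjoint_sdiff, Finset.union_sdiff_of_subset h]

theorem dg_compl (x : V) (S : Finset V) : dg H x univ = dg H x S + dg H x Sᶜ := by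
  rw [← dg_union H x disjoint_compl_right, Finset.union_compl]

/-- a locally optimal cut. -/
theorem exists_cut (B : Finset V) : ∃ F ⊆ B, (∀ x ∈ F, dg H x F ≤ dg H x (B \ F)) ∧
    ∀ x ∈ B \ F, dg H x (B \ F) ≤ dg H x F := by
  obtain ⟨F, hF, hmax⟩ := Finset.exists_max_image B.powerset
    (fun F => ∑ x ∈ F, dg H x (B \ F)) ⟨∅, Finset.empty_mem_powerset _⟩
  rw [Finset.mem_powerset] at hF
  refine ⟨F, hF, ?_, ?_⟩
  · intro x hx
    have h := hmax (F.erase x) (Finset.mem_powerset.2 ((Finset.erase_subset _ _).trans hF))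
    have e1 : B \ (F.erase x) = insert x (B \ F) := by
      ext y
      simp only [Finset.mem_sdiff, Finset.mem_erase, Finset.mem_insert]
      constructor
      · rintro ⟨h1, h2⟩
        by_cases hy : y = x
        · exact Or.inl hy
        · exact Or.inr ⟨h1, fun h3 => h2 ⟨hy, h3⟩⟩
      · rintro (rfl | ⟨h1, h2⟩)
        · exact ⟨hF hx, fun h3 => h3.1 rfl⟩
        · exact ⟨h1, fun h3 => h2 h3.2⟩
    have hxn : x ∉ B \ F := fun h2 => (Finset.mem_sdiff.1 h2).2 hx
    rw [e1] at h
    have e2 : ∑ u ∈ F.erase x, dg H u (insert x (B \ F)) =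
        ∑ u ∈ F.erase x, dg H u (B \ F) + dg H x F := by
      rw [← dg_erase_self H x F, dg_eq_sum, ← Finset.sum_add_distrib]
      apply Finset.sum_congr rfl
      intro u _
      rw [dg_insert H u x _ hxn]
    have e3 : ∑ u ∈ F, dg H u (B \ F) = ∑ u ∈ F.erase x, dg H u (B \ F) + dg H x (B \ F) := by
      rw [Finset.sum_erase_add _ _ hx]
    rw [e2, e3] at h
    omega
  · intro x hx
    have hxB : x ∈ B := (Finset.mem_sdiff.1 hx).1
    have hxF : x ∉ F := (Finset.mem_sdiff.1 hx).2
    have h := hmax (insert x F) (Finset.mem_powerset.2 (Finset.insert_subset hxB hF))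
    have e1 : B \ (insert x F) = (B \ F).erase x := by
      ext y
      simp only [Finset.mem_sdiff, Finset.mem_erase, Finset.mem_insert]
      tauto
    rw [e1, Finset.sum_insert hxF] at h
    have hxn : x ∉ (B \ F).erase x := Finset.notMem_erase x _
    have e2 : ∑ u ∈ F, dg H u (B \ F) =
        ∑ u ∈ F, dg H u ((B \ F).erase x) + dg H x F := by
      rw [dg_eq_sum H x F, ← Finset.sum_add_distrib]
      apply Finset.sum_congr rfl
      intro u _
      rw [← dg_insert H u x _ hxn, Finset.insert_erase hx]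
    rw [e2, dg_erase_self] at h
    omega

/-- removing one vertex from `Sᶜ`. -/
theorem sum_erase (S : Finset V) (w : V) (hw : w ∈ S) :
    ∑ v ∈ S, dg H v S = ∑ v ∈ S.erase w, dg H v (S.erase w) + 2 * dg H w S := by
  have h1 : ∑ v ∈ S, dg H v S = ∑ v ∈ S.erase w, dg H v S + dg H w S := by
    rw [Finset.sum_erase_add _ _ hw]
  have h2 : ∑ v ∈ S.erase w, dg H v S =
      ∑ v ∈ S.erase w, dg H v (S.erase w) + dg H w S := by
    rw [← dg_erase_self H w S, dg_eq_sum H w (S.erase w), ← Finset.sum_add_distrib]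
    apply Finset.sum_congr rfl
    intro v _
    rw [← dg_insert H v w _ (Finset.notMem_erase w S), Finset.insert_erase hw]
  omega

/-- greedy removal of vertices with at least `c` neighbours. -/
theorem exists_greedy (B : Finset V) (c : ℕ) : ∃ S, B ⊆ S ∧
    (∀ w, w ∉ S → dg H w Sᶜ < c) ∧
    2 * c * S.card ≤ 2 * c * B.card + ∑ v ∈ Bᶜ, dg H v Bᶜ := by
  have key : ∀ m : ℕ, ∀ S : Finset V, B ⊆ S → Sᶜ.card = m →
      2 * c * S.card + ∑ v ∈ Sᶜ, dg H v Sᶜ ≤ 2 * c * B.card + ∑ v ∈ Bᶜ, dg H v Bᶜ →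
      ∃ S, B ⊆ S ∧ (∀ w, w ∉ S → dg H w Sᶜ < c) ∧
        2 * c * S.card ≤ 2 * c * B.card + ∑ v ∈ Bᶜ, dg H v Bᶜ := by
    intro m
    induction m with
    | zero =>
      intro S hS hm h
      refine ⟨S, hS, ?_, by omega⟩
      intro w hw
      rw [Finset.card_eq_zero] at hm
      have : w ∈ Sᶜ := Finset.mem_compl.2 hw
      rw [hm] at this
      exact absurd this (Finset.notMem_empty _)
    | succ m ih =>
      intro S hS hm h
      by_cases hcase : ∀ w, w ∉ S → dg H w Sᶜ < c
      · exact ⟨S, hS, hcase, by omega⟩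
      · push Not at hcase
        obtain ⟨w, hw, hwc⟩ := hcase
        have hwm : w ∈ Sᶜ := Finset.mem_compl.2 hw
        have e1 : (insert w S)ᶜ = Sᶜ.erase w := Finset.compl_insert
        refine ih (insert w S) (hS.trans (Finset.subset_insert _ _)) ?_ ?_
        · rw [e1, Finset.card_erase_of_mem hwm, hm]
          rfl
        · rw [e1, Finset.card_insert_of_notMem hw]
          have := sum_erase H Sᶜ w hwm
          have h3 : 2 * c * (S.card + 1) = 2 * c * S.card + 2 * c := by ring
          omega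
  exact key _ B (Finset.Subset.refl _) rfl le_rfl

/-- double counting. -/
theorem sum_dg_swap (S T : Finset V) : ∑ v ∈ S, dg H v T = ∑ v ∈ T, dg H v S := by
  have h1 : ∑ v ∈ S, dg H v T = ∑ v ∈ S, ∑ x ∈ T, if H.Adj x v then 1 else 0 :=
    Finset.sum_congr rfl (fun v _ => dg_eq_sum H v T)
  have h2 : ∑ v ∈ T, dg H v S = ∑ v ∈ T, ∑ x ∈ S, if H.Adj x v then 1 else 0 :=
    Finset.sum_congr rfl (fun v _ => dg_eq_sum H v S)
  rw [h1, h2, Finset.sum_comm]
  apply Finset.sum_congr rfl
  intro v _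
  apply Finset.sum_congr rfl
  intro x _
  simp only [H.adj_comm v x]

theorem sum_total (B : Finset V) : ∑ v, dg H v univ =
    ∑ v ∈ B, (2 * dg H v Bᶜ + dg H v B) + ∑ v ∈ Bᶜ, dg H v Bᶜ := by
  have h1 : ∑ v, dg H v univ = ∑ v ∈ B, dg H v univ + ∑ v ∈ Bᶜ, dg H v univ :=
    (Finset.sum_add_sum_compl B _).symm
  have h2 : ∑ v ∈ B, dg H v univ = ∑ v ∈ B, dg H v B + ∑ v ∈ B, dg H v Bᶜ := by
    rw [← Finset.sum_add_distrib]
    exact Finset.sum_congr rfl (fun v _ => dg_compl H v B)
  have h3 : ∑ v ∈ Bᶜ, dg H v univ = ∑ v ∈ Bᶜ, dg H v B + ∑ v ∈ Bᶜ, dg H v Bᶜ := by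
    rw [← Finset.sum_add_distrib]
    exact Finset.sum_congr rfl (fun v _ => dg_compl H v B)
  have h4 := sum_dg_swap H Bᶜ B
  have h5 : ∑ v ∈ B, (2 * dg H v Bᶜ + dg H v B) =
      2 * ∑ v ∈ B, dg H v Bᶜ + ∑ v ∈ B, dg H v B := by
    rw [Finset.mul_sum, ← Finset.sum_add_distrib]
  omega

end Dg

end Pool.Agent.H71.CN
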