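import Mathlib
import Pool.Agent.H71.CN.Core

/-!
# Stability of star hosts, main inequality
-/

set_option autoImplicit false
set_option linter.unusedSectionVars false

namespace Pool.Agent.H71.CN

open Finset

/-- numerical bound for the sampling step. -/
theorem num_bound {d o b s : ℕ} (hd : 120 ≤ d) (h1 : 7 * (2 * o + b) < 8 * d)
    (h2 : d + s = b + o) : (2 : ℝ) ^ s * (7 / 8 : ℝ) ^ b ≤ 1 / 60 := by
  have hs : 8 * s ≤ b := by omega
  have hb : 96 ≤ b := by omega
  have h3 : ((2 : ℝ) ^ s * (7 / 8 : ℝ) ^ b) ^ 8 ≤ (1 / 60 : ℝ) ^ 8 := by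
    calc ((2 : ℝ) ^ s * (7 / 8 : ℝ) ^ b) ^ 8
        = (2 : ℝ) ^ (8 * s) * ((7 / 8 : ℝ) ^ 8) ^ b := by
          rw [mul_pow, ← pow_mul, ← pow_mul, ← pow_mul, mul_comm s 8, mul_comm b 8]
      _ ≤ (2 : ℝ) ^ b * ((7 / 8 : ℝ) ^ 8) ^ b := by
          apply mul_le_mul_of_nonneg_right _ (by positivity)
          exact pow_le_pow_right₀ (by norm_num) hs
      _ = (2 * (7 / 8 : ℝ) ^ 8) ^ b := by rw [mul_pow]
      _ ≤ (11 / 16 : ℝ) ^ b := by
          apply pow_le_pow_left₀ (by positivity)
          norm_num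
      _ ≤ (11 / 16 : ℝ) ^ 96 := by
          apply pow_le_pow_of_le_one (by norm_num) (by norm_num) hb
      _ = ((11 / 16 : ℝ) ^ 12) ^ 8 := by rw [← pow_mul]
      _ ≤ (1 / 60 : ℝ) ^ 8 := by
          apply pow_le_pow_left₀ (by positivity)
          norm_num
  exact le_of_pow_le_pow_left₀ (by norm_num) (by norm_num) h3

section Dg

variable {V : Type*} [Fintype V] [DecidableEq V] (H : SimpleGraph V) [DecidableRel H.Adj]

/-- vertices of degree at least `d`. -/
def big (d : ℕ) : Finset V := univ.filter (fun x => d ≤ dg H x univ)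

/-- the robustness hypothesis. -/
def Rob (d t : ℕ) : Prop := ∀ S : Finset V, S.card < t → ∃ x, x ∉ S ∧ d ≤ dg H x Sᶜ

/-- vertices with large cost. -/
def hi (d : ℕ) : Finset V :=
  (big H d).filter (fun x => 2 * d ≤ 2 * dg H x (big H d)ᶜ + dg H x (big H d))

/-- vertices with small cost. -/
def lo (d : ℕ) : Finset V :=
  (big H d).filter (fun x => 7 * (2 * dg H x (big H d)ᶜ + dg H x (big H d)) < 8 * d)

theorem mem_big_of {d : ℕ} {x : V} {S : Finset V} (h : d ≤ dg H x S) : x ∈ big H d := by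
  rw [big, Finset.mem_filter]
  exact ⟨Finset.mem_univ _, h.trans (dg_mono H x (Finset.subset_univ _))⟩

/-- the max cut step, one side. -/
theorem half_side {d t : ℕ} (hR : Rob H d t) (F : Finset V) (hF : F ⊆ big H d)
    (hcut : ∀ x ∈ big H d \ F, dg H x (big H d \ F) ≤ dg H x F) :
    t ≤ (F ∪ (hi H d \ F)).card := by
  by_contra hcon
  push Not at hcon
  obtain ⟨x, hx, hdx⟩ := hR _ hcon
  have hxB := mem_big_of H hdx
  have hxF : x ∉ F := fun h => hx (Finset.mem_union_left _ h)
  have hxhi : x ∉ hi H d := by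
    intro h
    exact hx (Finset.mem_union_right _ (Finset.mem_sdiff.2 ⟨h, hxF⟩))
  have hxd : x ∈ big H d \ F := Finset.mem_sdiff.2 ⟨hxB, hxF⟩
  have h1 := hcut x hxd
  have h2 := dg_split H x hF
  have h3 : dg H x (F ∪ (hi H d \ F))ᶜ ≤ dg H x ((big H d)ᶜ ∪ (big H d \ F)) := by
    apply dg_mono
    intro y hy
    rw [Finset.mem_compl, Finset.mem_union, not_or] at hy
    rw [Finset.mem_union, Finset.mem_compl, Finset.mem_sdiff]
    by_cases hyB : y ∈ big H d
    · exact Or.inr ⟨hyB, hy.1⟩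
    · exact Or.inl hyB
  have h4 : dg H x ((big H d)ᶜ ∪ (big H d \ F)) =
      dg H x (big H d)ᶜ + dg H x (big H d \ F) := by
    apply dg_union
    rw [Finset.disjoint_left]
    intro y hy hy2
    exact (Finset.mem_compl.1 hy) (Finset.mem_sdiff.1 hy2).1
  apply hxhi
  rw [hi, Finset.mem_filter]
  exact ⟨hxB, by omega⟩

theorem half {d t : ℕ} (hR : Rob H d t) : 2 * t ≤ (big H d).card + (hi H d).card := by
  obtain ⟨F, hF, hc1, hc2⟩ := exists_cut H (big H d)
  have h1 := half_side H hR F hF hc2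
  have hF' : big H d \ F ⊆ big H d := Finset.sdiff_subset
  have e : big H d \ (big H d \ F) = F := by
    rw [Finset.sdiff_sdiff_eq_self hF]
  have h2 := half_side H hR (big H d \ F) hF' (by rw [e]; exact hc1)
  have c1 := Finset.card_union_le F (hi H d \ F)
  have c2 := Finset.card_union_le (big H d \ F) (hi H d \ (big H d \ F))
  have c3 : F.card + (big H d \ F).card = (big H d).card := by
    rw [Finset.card_sdiff_of_subset hF]
    have := Finset.card_le_card hF
    omega
  have c4 : (hi H d \ F).card + (hi H d \ (big H d \ F)).card ≤ (hi H d).card := by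
    rw [← Finset.card_union_of_disjoint]
    · apply Finset.card_le_card
      exact Finset.union_subset Finset.sdiff_subset Finset.sdiff_subset
    · rw [Finset.disjoint_left]
      intro y hy hy2
      rw [Finset.mem_sdiff] at hy hy2
      have hyB : y ∈ big H d := (Finset.mem_filter.1 hy.1).1
      exact hy2.2 (Finset.mem_sdiff.2 ⟨hyB, hy.2⟩)
  omega

/-- the sampling step. -/
theorem quarter {d t : ℕ} (hd : 120 ≤ d) (hR : Rob H d t) :
    (t : ℝ) ≤ (big H d).card - (lo H d).card + (1 / 4 + 1 / 60) * (lo H d).card := by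
  classical
  set B := big H d with hB
  set L := lo H d with hL
  have hLB : L ⊆ B := Finset.filter_subset _ _
  obtain ⟨T, hT, hTs⟩ := sampling L (fun x => univ.filter (fun y => H.Adj x y)) L
    (fun x => (2 : ℝ) ^ (dg H x univ - d) * (1 / 2 : ℝ) ^ dg H x (B \ L))
    (fun x => by positivity)
  have hint : ∀ (x : V) (S : Finset V), ((univ.filter (fun y => H.Adj x y)) ∩ S).card =
      dg H x S := by
    intro x S
    unfold dg
    congr 1
    ext y
    simp [and_comm]
  simp only [hint] at hTs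
  -- failures
  let Fa : Finset V := L.filter (fun x => d + dg H x (B \ L) + dg H x T ≤ dg H x univ)
  have hFa : (Fa.card : ℝ) ≤ ∑ x ∈ L, (2 : ℝ) ^ (dg H x univ - d) * (1 / 2 : ℝ) ^ dg H x (B \ L) *
      (1 / 2 : ℝ) ^ dg H x T := by
    have h1 : (Fa.card : ℝ) = ∑ x ∈ Fa, (1 : ℝ) := by simp
    rw [h1]
    refine (Finset.sum_le_sum (f := fun _ => (1 : ℝ))
      (g := fun x => (2 : ℝ) ^ (dg H x univ - d) * (1 / 2 : ℝ) ^ dg H x (B \ L) *
      (1 / 2 : ℝ) ^ dg H x T) ?_).trans
      (Finset.sum_le_sum_of_subset_of_nonneg (Finset.filter_subset _ _)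
        (fun x _ _ => by positivity))
    intro x hx
    have hx2 := (Finset.mem_filter.1 hx).2
    have e : dg H x univ - d = (dg H x (B \ L) + dg H x T) +
        (dg H x univ - d - dg H x (B \ L) - dg H x T) := by omega
    rw [e, pow_add, pow_add, one_div, inv_pow, inv_pow]
    have p1 : (0 : ℝ) < 2 ^ dg H x (B \ L) := by positivity
    have p2 : (0 : ℝ) < 2 ^ dg H x T := by positivity
    have p3 : (1 : ℝ) ≤ 2 ^ (dg H x univ - d - dg H x (B \ L) - dg H x T) :=
      one_le_pow₀ (by norm_num)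
    field_simp
    exact p3
  have hbd : ∑ x ∈ L, (2 : ℝ) ^ (dg H x univ - d) * (1 / 2 : ℝ) ^ dg H x (B \ L) *
      (7 / 8 : ℝ) ^ dg H x L ≤ 1 / 60 * L.card := by
    have : ∑ x ∈ L, (2 : ℝ) ^ (dg H x univ - d) * (1 / 2 : ℝ) ^ dg H x (B \ L) *
      (7 / 8 : ℝ) ^ dg H x L ≤ ∑ x ∈ L, (1 / 60 : ℝ) := by
      apply Finset.sum_le_sum
      intro x hx
      have hx1 : x ∈ B := hLB hx
      have hx2 := (Finset.mem_filter.1 hx).2
      have hx3 := (Finset.mem_filter.1 hx1).2
      have h4 := dg_compl H x B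
      have h5 := dg_split H x hLB
      have h6 : (1 / 2 : ℝ) ^ dg H x (B \ L) ≤ (7 / 8 : ℝ) ^ dg H x (B \ L) :=
        pow_le_pow_left₀ (by norm_num) (by norm_num) _
      calc (2 : ℝ) ^ (dg H x univ - d) * (1 / 2 : ℝ) ^ dg H x (B \ L) * (7 / 8 : ℝ) ^ dg H x L
          ≤ (2 : ℝ) ^ (dg H x univ - d) * (7 / 8 : ℝ) ^ dg H x (B \ L) *
            (7 / 8 : ℝ) ^ dg H x L := by
            apply mul_le_mul_of_nonneg_right _ (by positivity)
            exact mul_le_mul_of_nonneg_left h6 (by positivity)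
        _ = (2 : ℝ) ^ (dg H x univ - d) * (7 / 8 : ℝ) ^ dg H x B := by
            rw [mul_assoc, ← pow_add, h5, add_comm (dg H x (B \ L))]
        _ ≤ 1 / 60 := by
            have hx2' : 7 * (2 * dg H x Bᶜ + dg H x B) < 8 * d := hx2
            have hx3' : d ≤ dg H x univ := hx3
            have h7 : d + (dg H x univ - d) = dg H x B + dg H x Bᶜ := by
              rw [← h4]
              exact Nat.add_sub_cancel' hx3'
            exact num_bound (d := d) (o := dg H x Bᶜ) (b := dg H x B)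
              (s := dg H x univ - d) hd hx2' h7
    refine this.trans (le_of_eq ?_)
    rw [Finset.sum_const, nsmul_eq_mul]
    ring
  -- the deletion set
  have hcard : t ≤ ((B \ L) ∪ (T ∪ Fa)).card := by
    by_contra hcon
    push Not at hcon
    obtain ⟨x, hx, hdx⟩ := hR _ hcon
    rw [Finset.mem_union, Finset.mem_union, not_or, not_or] at hx
    have hxB : x ∈ B := mem_big_of H hdx
    have hxL : x ∈ L := by
      by_contra h
      exact hx.1 (Finset.mem_sdiff.2 ⟨hxB, h⟩)
    apply hx.2.2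
    refine Finset.mem_filter.2 ⟨hxL, ?_⟩
    have h1 := dg_compl H x ((B \ L) ∪ (T ∪ Fa))
    have h2 : dg H x ((B \ L) ∪ T) ≤ dg H x ((B \ L) ∪ (T ∪ Fa)) := by
      apply dg_mono
      intro y hy
      rw [Finset.mem_union] at hy ⊢
      rcases hy with hy | hy
      · exact Or.inl hy
      · exact Or.inr (Finset.mem_union_left _ hy)
    have h3 : dg H x ((B \ L) ∪ T) = dg H x (B \ L) + dg H x T := by
      apply dg_union
      rw [Finset.disjoint_left]
      intro y hy hy2
      exact (Finset.mem_sdiff.1 hy).2 (hT hy2)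
    omega
  have c1 := Finset.card_union_le (B \ L) (T ∪ Fa)
  have c2 := Finset.card_union_le T Fa
  have c3 : (B \ L).card + L.card = B.card := by
    rw [Finset.card_sdiff_of_subset hLB]
    have := Finset.card_le_card hLB
    omega
  have c4 : (t : ℝ) + L.card ≤ B.card + T.card + Fa.card := by
    have : t + L.card ≤ B.card + T.card + Fa.card := by omega
    exact_mod_cast this
  linarith

/-- the stability inequality: twice the number of edges meeting the big vertices. -/
theorem stability {d t : ℕ} (hd : 120 ≤ d) (hR : Rob H d t) :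
    2 * (d : ℝ) * t + d / 11 * ((big H d).card - t) ≤
      ∑ v ∈ big H d, (2 * (dg H v (big H d)ᶜ : ℝ) + dg H v (big H d)) := by
  set B := big H d with hB
  have h1 := half H hR
  have h2 := quarter H hd hR
  rw [← hB] at h1 h2
  have hhi : hi H d ⊆ B := Finset.filter_subset _ _
  have hlo : lo H d ⊆ B := Finset.filter_subset _ _
  have hdis : Disjoint (hi H d) (lo H d) := by
    rw [Finset.disjoint_left]
    intro x h3 h4
    have h5 := (Finset.mem_filter.1 h3).2
    have h6 := (Finset.mem_filter.1 h4).2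
    omega
  -- weights
  have key : ∀ v ∈ B, (8 / 7 * (d : ℝ)) + (if v ∈ hi H d then 6 / 7 * (d : ℝ) else 0) -
      (if v ∈ lo H d then 1 / 7 * (d : ℝ) else 0) ≤
      2 * (dg H v Bᶜ : ℝ) + dg H v B := by
    intro v hv
    by_cases h3 : v ∈ hi H d
    · have h4 : v ∉ lo H d := Finset.disjoint_left.1 hdis h3
      rw [if_pos h3, if_neg h4]
      have h5 := (Finset.mem_filter.1 h3).2
      have h6 : (2 : ℝ) * d ≤ 2 * dg H v Bᶜ + dg H v B := by exact_mod_cast h5
      linarith
    · by_cases h4 : v ∈ lo H d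
      · rw [if_neg h3, if_pos h4]
        have h5 := (Finset.mem_filter.1 hv).2
        have h6 := dg_compl H v B
        have h7 : (d : ℝ) ≤ dg H v Bᶜ + dg H v B := by
          have : d ≤ dg H v Bᶜ + dg H v B := by omega
          exact_mod_cast this
        have h8 : (0 : ℝ) ≤ dg H v Bᶜ := Nat.cast_nonneg _
        linarith
      · rw [if_neg h3, if_neg h4]
        have h5 : ¬ 7 * (2 * dg H v B ᶜ + dg H v B) < 8 * d := by
          intro h
          exact h4 (Finset.mem_filter.2 ⟨hv, h⟩)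
        have h6 : (8 : ℝ) * d ≤ 7 * (2 * dg H v Bᶜ + dg H v B) := by
          have : 8 * d ≤ 7 * (2 * dg H v Bᶜ + dg H v B) := by omega
          exact_mod_cast this
        linarith
  have hsum := Finset.sum_le_sum key
  have e1 : ∑ v ∈ B, ((8 / 7 * (d : ℝ)) + (if v ∈ hi H d then 6 / 7 * (d : ℝ) else 0) -
      (if v ∈ lo H d then 1 / 7 * (d : ℝ) else 0)) =
      8 / 7 * d * B.card + 6 / 7 * d * (hi H d).card - 1 / 7 * d * (lo H d).card := by
    rw [Finset.sum_sub_distrib, Finset.sum_add_distrib, Finset.sum_const, nsmul_eq_mul,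
      ← Finset.sum_filter, ← Finset.sum_filter, Finset.filter_mem_eq_inter,
      Finset.filter_mem_eq_inter, Finset.inter_eq_right.2 hhi, Finset.inter_eq_right.2 hlo,
      Finset.sum_const, Finset.sum_const, nsmul_eq_mul, nsmul_eq_mul]
    ring
  rw [e1] at hsum
  refine le_trans ?_ hsum
  have h1' : 2 * (t : ℝ) ≤ B.card + (hi H d).card := by exact_mod_cast h1
  have hd0 : (0 : ℝ) ≤ d := Nat.cast_nonneg _
  have a1 : (d : ℝ) * (2 * t) ≤ d * (B.card + (hi H d).card) :=
    mul_le_mul_of_nonneg_left h1' hd0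
  have h3 : (lo H d).card ≤ (15 / 11 : ℝ) * (B.card - t) := by linarith
  have a2 : (d : ℝ) * (lo H d).card ≤ d * ((15 / 11 : ℝ) * (B.card - t)) :=
    mul_le_mul_of_nonneg_left h3 hd0
  linarith

/-- the main inequality for hosts. -/
theorem main_ineq {c d t : ℕ} (hd : 120 ≤ d) (hcd : 22 * c ≤ d) (hR : Rob H d t)
    (hC : ∀ S : Finset V, big H d ⊆ S → (∀ w, w ∉ S → dg H w Sᶜ < c) → 2 * t ≤ S.card) :
    2 * (t * (d + c)) ≤ ∑ v, dg H v univ := by
  obtain ⟨S, hBS, hS, hcard⟩ := exists_greedy H (big H d) c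
  have h1 := hC S hBS hS
  have h2 := stability H hd hR
  have h3 := sum_total H (big H d)
  have hBt : t ≤ (big H d).card := by
    by_contra hcon
    push Not at hcon
    obtain ⟨x, hx, hdx⟩ := hR _ hcon
    exact hx (mem_big_of H hdx)
  have h3' : (∑ v, dg H v univ : ℝ) =
      ∑ v ∈ big H d, (2 * (dg H v (big H d)ᶜ : ℝ) + dg H v (big H d)) +
      ∑ v ∈ (big H d)ᶜ, (dg H v (big H d)ᶜ : ℝ) := by
    exact_mod_cast h3
  have hcard' : 2 * (c : ℝ) * S.card ≤ 2 * c * (big H d).card +
      ∑ v ∈ (big H d)ᶜ, (dg H v (big H d)ᶜ : ℝ) := by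
    exact_mod_cast hcard
  have hcd' : 22 * (c : ℝ) ≤ d := by exact_mod_cast hcd
  have hBt' : (0 : ℝ) ≤ (big H d).card - t := by
    have : (t : ℝ) ≤ (big H d).card := by exact_mod_cast hBt
    linarith
  have h1' : 2 * (t : ℝ) ≤ S.card := by exact_mod_cast h1
  have a1 : 2 * (c : ℝ) * (2 * t) ≤ 2 * c * S.card :=
    mul_le_mul_of_nonneg_left h1' (by positivity)
  have a2 : (22 * (c : ℝ)) * ((big H d).card - t) ≤ d * ((big H d).card - t) :=
    mul_le_mul_of_nonneg_right hcd' hBt'
  have goal : 2 * ((t : ℝ) * (d + c)) ≤ (∑ v, dg H v univ : ℝ) := by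
    rw [h3']
    linarith
  exact_mod_cast goal

end Dg

end Pool.Agent.H71.CN
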