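import Mathlib
import Pool.Graph.R_seed8.Helper539.Basic
import Pool.Agent.H71.CN.Stab

/-!
# Hosts for a star with a small star attached to one of its leaves, versus matchings
-/

set_option autoImplicit false
set_option linter.unusedSectionVars false

namespace Pool.Agent.H71.CN

open Finset SimpleGraph Pool.Agent.Helper539

section Host

variable {V X : Type*} [Fintype X] [DecidableEq X] (F : SimpleGraph X) [DecidableRel F.Adj]
  (G : SimpleGraph V)

/-- colouring blue all edges which meet a small set. -/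
theorem rob_of_arrows {v1 : V} {d t : ℕ} (hd : 1 ≤ d) (D : Finset V)
    (hD : ∀ u ∈ D, G.Adj v1 u) (hDc : d ≤ D.card) (hF : Arrows F G (matchingGraph t)) :
    Rob F d t := by
  classical
  intro S hS
  let R : SimpleGraph X :=
    { Adj := fun x y => F.Adj x y ∧ x ∉ S ∧ y ∉ S
      symm := ⟨fun x y h => ⟨h.1.symm, h.2.2, h.2.1⟩⟩
      loopless := ⟨fun x h => F.loopless.irrefl x h.1⟩ }
  rcases hF R (fun x y h => h.1) with h | h
  · obtain ⟨f⟩ := h
    have hadj : ∀ u ∈ D, R.Adj (f v1) (f u) := fun u hu => f.toHom.map_adj (hD u hu)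
    have hne : D.Nonempty := by
      rw [← Finset.card_pos]
      omega
    obtain ⟨u0, hu0⟩ := hne
    refine ⟨f v1, (hadj u0 hu0).2.1, ?_⟩
    refine hDc.trans ?_
    rw [← Finset.card_map ⟨f, f.injective⟩]
    apply Finset.card_le_card
    intro y hy
    rw [Finset.mem_map] at hy
    obtain ⟨u, hu, rfl⟩ := hy
    rw [Finset.mem_filter, Finset.mem_compl]
    exact ⟨(hadj u hu).2.2, (hadj u hu).1⟩
  · exfalso
    rw [matchingGraph_isContained_iff] at h
    obtain ⟨g, hg, hadj⟩ := h
    have hb : ∀ i : Fin t, ∃ b : Bool, g (i, b) ∈ S := by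
      intro i
      by_contra hcon
      push Not at hcon
      have h1 := hadj i
      rw [SimpleGraph.sdiff_adj] at h1
      exact h1.2 ⟨h1.1, hcon false, hcon true⟩
    choose b hb using hb
    have h2 : (univ : Finset (Fin t)).card ≤ S.card := by
      apply Finset.card_le_card_of_injOn (fun i => g (i, b i)) (fun i _ => hb i)
      intro i _ j _ hij
      have := hg hij
      exact (Prod.mk.injEq _ _ _ _ ▸ this).1
    rw [Finset.card_univ, Fintype.card_fin] at h2
    omega

/-- colouring blue all edges inside a set. -/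
theorem two_mul_le_of_arrows {v1 v2 : V} {c d t : ℕ} (h12 : G.Adj v1 v2) (D : Finset V)
    (hD : ∀ u ∈ D, G.Adj v1 u) (hDc : d ≤ D.card) (C : Finset V)
    (hC : ∀ u ∈ C, G.Adj v1 u ∧ G.Adj v2 u) (hCc : c ≤ C.card)
    (hF : Arrows F G (matchingGraph t)) (S : Finset X) (hS : big F d ⊆ S)
    (hS2 : ∀ w, w ∉ S → dg F w Sᶜ < c) : 2 * t ≤ S.card := by
  classical
  let R : SimpleGraph X :=
    { Adj := fun x y => F.Adj x y ∧ ¬ (x ∈ S ∧ y ∈ S)
      symm := ⟨fun x y h => ⟨h.1.symm, fun h2 => h.2 ⟨h2.2, h2.1⟩⟩⟩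
      loopless := ⟨fun x h => F.loopless.irrefl x h.1⟩ }
  rcases hF R (fun x y h => h.1) with h | h
  · exfalso
    obtain ⟨f⟩ := h
    have hmap : ∀ {x y : V}, G.Adj x y → R.Adj (f x) (f y) := fun h => f.toHom.map_adj h
    have h1 : f v1 ∈ S := by
      apply hS
      have : d ≤ dg F (f v1) univ := by
        refine hDc.trans ?_
        rw [← Finset.card_map ⟨f, f.injective⟩]
        apply Finset.card_le_card
        intro y hy
        rw [Finset.mem_map] at hy
        obtain ⟨u, hu, rfl⟩ := hy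
        rw [Finset.mem_filter]
        exact ⟨Finset.mem_univ _, (hmap (hD u hu)).1⟩
      exact mem_big_of F this
    have h2 : ∀ u, G.Adj v1 u → f u ∉ S := fun u hu h3 => (hmap hu).2 ⟨h1, h3⟩
    have h3 := hS2 (f v2) (h2 v2 h12)
    have h4 : c ≤ dg F (f v2) Sᶜ := by
      refine hCc.trans ?_
      rw [← Finset.card_map ⟨f, f.injective⟩]
      apply Finset.card_le_card
      intro y hy
      rw [Finset.mem_map] at hy
      obtain ⟨u, hu, rfl⟩ := hy
      rw [Finset.mem_filter, Finset.mem_compl]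
      exact ⟨h2 u (hC u hu).1, (hmap (hC u hu).2).1⟩
    omega
  · rw [matchingGraph_isContained_iff] at h
    obtain ⟨g, hg, hadj⟩ := h
    have hb : ∀ x : Fin t × Bool, g x ∈ S := by
      rintro ⟨i, b⟩
      have h1 := hadj i
      rw [SimpleGraph.sdiff_adj] at h1
      have h2 : g (i, false) ∈ S ∧ g (i, true) ∈ S := by
        by_contra hcon
        exact h1.2 ⟨h1.1, hcon⟩
      cases b
      · exact h2.1
      · exact h2.2
    have h2 : (univ : Finset (Fin t × Bool)).card ≤ S.card :=
      Finset.card_le_card_of_injOn g (fun i _ => hb i) (fun i _ j _ hij => hg hij)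
    rw [Finset.card_univ, Fintype.card_prod, Fintype.card_fin, Fintype.card_bool] at h2
    omega

theorem sum_dg_eq : ∑ v, dg F v univ = 2 * F.edgeSet.ncard := by
  classical
  rw [Set.ncard_eq_toFinset_card' F.edgeSet]
  have h := F.sum_degrees_eq_twice_card_edges
  have e : ∀ v, dg F v univ = F.degree v := by
    intro v
    rw [← SimpleGraph.card_neighborFinset_eq_degree, SimpleGraph.neighborFinset_eq_filter]
    rfl
  simp only [e]
  rw [h]
  rfl

/-- lower bound for hosts. -/
theorem host_bound {v1 v2 : V} {c d t : ℕ} (h12 : G.Adj v1 v2) (hd : 120 ≤ d)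
    (hcd : 22 * c ≤ d) (D : Finset V)
    (hD : ∀ u ∈ D, G.Adj v1 u) (hDc : d ≤ D.card) (C : Finset V)
    (hC : ∀ u ∈ C, G.Adj v1 u ∧ G.Adj v2 u) (hCc : c ≤ C.card)
    (hF : Arrows F G (matchingGraph t)) : t * (d + c) ≤ F.edgeSet.ncard := by
  have hR := rob_of_arrows F G (by omega : 1 ≤ d) D hD hDc hF
  have h1 := main_ineq F hd hcd hR
    (fun S hS hS2 => two_mul_le_of_arrows F G h12 D hD hDc C hC hCc hF S hS hS2)
  rw [sum_dg_eq] at h1
  omega

end Host

/-- lower bound for the size Ramsey number. -/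
theorem le_sizeRamsey {V : Type*} [Fintype V] (G : SimpleGraph V) {v1 v2 : V}
    {c d : ℕ} (h12 : G.Adj v1 v2) (hd : 120 ≤ d) (hcd : 22 * c ≤ d)
    (hD : d ≤ (G.neighborSet v1).ncard) (hC : c ≤ (G.commonNeighbors v1 v2).ncard) (t : ℕ) :
    t * (d + c) ≤ sizeRamsey G (matchingGraph t) := by
  classical
  obtain ⟨N, F, hF, hF'⟩ := exists_sizeRamsey G t
  rw [← hF]
  refine host_bound F G h12 hd hcd (G.neighborSet v1).toFinset ?_ ?_
    (G.commonNeighbors v1 v2).toFinset ?_ ?_ hF'
  · intro u hu
    rw [Set.mem_toFinset] at hu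
    exact hu
  · rw [← Set.ncard_eq_toFinset_card']
    exact hD
  · intro u hu
    rw [Set.mem_toFinset, SimpleGraph.mem_commonNeighbors] at hu
    exact hu
  · rw [← Set.ncard_eq_toFinset_card']
    exact hC

/-- the disjoint union upper bound. -/
theorem sizeRamsey_le_mul {V : Type*} [Fintype V] (G : SimpleGraph V) (t : ℕ) :
    sizeRamsey G (matchingGraph t) ≤ t * G.edgeSet.ncard := by
  induction t with
  | zero =>
    have h : Arrows (⊥ : SimpleGraph (Fin 0)) G (matchingGraph 0) :=
      fun R _ => Or.inr (matchingGraph_zero_isContained _)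
    refine (sizeRamsey_le h).trans ?_
    simp
  | succ t ih =>
    refine (sizeRamsey_add_le G t 1).trans ?_
    have h1 := sizeRamsey_le (arrows_one G)
    rw [add_mul, one_mul]
    exact Nat.add_le_add ih h1

end Pool.Agent.H71.CN
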